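import Pool.Agent.Lib.MP_50bb2e_nt.MT.Iface

/-! CQN: counting quadratic classes by the norm of the conductor. -/

set_option autoImplicit false

open NumberField IsDedekindDomain Filter Topology

namespace Pool.Agent.Lib.MP_50bb2e_nt.MT.H91

theorem nm_pos {F : Type} [Field F] [NumberField F] (v : Pr F) : 1 ≤ nm v := by
  unfold nm
  have h : Ideal.absNorm v.asIdeal ≠ 0 := by
    rw [Ne, Ideal.absNorm_eq_zero_iff]
    exact v.ne_bot
  omega

theorem nrm_pos {F : Type} [Field F] [NumberField F] (s : Finset (Pr F)) : 1 ≤ nrm s := by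
  unfold nrm
  exact Finset.one_le_prod' (fun v _ => nm_pos v)

theorem nrm_mul_le {F : Type} [Field F] [NumberField F] (s t u : Finset (Pr F))
    (h : ∀ v ∈ s, v ∈ t ∨ v ∈ u) : nrm s ≤ nrm t * nrm u := by
  classical
  have h1 : nrm s ≤ nrm (t ∪ u) := by
    unfold nrm
    apply Finset.prod_le_prod_of_subset_of_one_le'
    · intro v hv
      simpa using h v hv
    · intro v _ _
      exact nm_pos v
  have h2 : nrm (t ∪ u) * nrm (t ∩ u) = nrm t * nrm u := by
    unfold nrm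
    exact Finset.prod_union_inter
  have h3 : nrm (t ∪ u) ≤ nrm (t ∪ u) * nrm (t ∩ u) :=
    Nat.le_mul_of_pos_right _ (nrm_pos _)
  omega

theorem cqn (h1 : OrdS) (h2 : UppS) (h3 : LowS) (h4 : CndS) : CqnS := by
  intro F _ _
  obtain ⟨_, _, hsp, _⟩ := h1 F
  obtain ⟨hfin, C1, hC1, hup⟩ := h2 F
  obtain ⟨c, hc, hlow⟩ := h3 F
  obtain ⟨⟨C, hC, hcmp⟩, _, _⟩ := h4 F
  have hC0 : 0 < C := lt_of_lt_of_le one_pos hC
  have hsub : ∀ X : ℝ, {q : Quad F | (condNorm q : ℝ) ≤ X} ⊆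
      {q : Quad F | (nrm (sp q) : ℝ) ≤ C * X} := by
    intro X q hq
    have hq' : (condNorm q : ℝ) ≤ X := hq
    exact le_trans (hcmp q).1 (mul_le_mul_of_nonneg_left hq' hC0.le)
  have hsub2 : ∀ X : ℝ, {q : Quad F | (nrm (sp q) : ℝ) ≤ X / C} ⊆
      {q : Quad F | (condNorm q : ℝ) ≤ X} := by
    intro X q hq
    have hq' : (nrm (sp q) : ℝ) ≤ X / C := hq
    have : C * (nrm (sp q) : ℝ) ≤ X := by
      rw [le_div_iff₀ hC0] at hq'
      linarith
    exact le_trans (hcmp q).2 this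
  have hcf : ∀ X : ℝ, {q : Quad F | (condNorm q : ℝ) ≤ X}.Finite :=
    fun X => (hfin (C * X)).subset (hsub X)
  have hcount : ∀ X : ℝ, count (Set.univ : Set (Quad F)) X =
      {q : Quad F | (condNorm q : ℝ) ≤ X}.ncard := by
    intro X
    unfold count
    congr 1
    ext q
    simp
  refine ⟨hcf, ⟨C1 * C, by positivity, ?_⟩, ⟨c / C, by positivity, ?_⟩, ?_⟩
  · intro X hX
    rw [hcount]
    have h5 : ({q : Quad F | (condNorm q : ℝ) ≤ X}.ncard : ℝ) ≤
        ({q : Quad F | (nrm (sp q) : ℝ) ≤ C * X}.ncard : ℝ) := by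
      exact_mod_cast Set.ncard_le_ncard (hsub X) (hfin (C * X))
    have h6 := hup (C * X) (by positivity)
    calc _ ≤ _ := h5
      _ ≤ C1 * (C * X) := h6
      _ = C1 * C * X := by ring
  · have ht : Tendsto (fun X : ℝ => X / C) atTop atTop :=
      tendsto_id.atTop_div_const hC0
    filter_upwards [ht.eventually hlow] with X hX
    rw [hcount]
    have h5 : ({q : Quad F | (nrm (sp q) : ℝ) ≤ X / C}.ncard : ℝ) ≤
        ({q : Quad F | (condNorm q : ℝ) ≤ X}.ncard : ℝ) := by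
      exact_mod_cast Set.ncard_le_ncard (hsub2 X) (hcf X)
    calc c / C * X = c * (X / C) := by ring
      _ ≤ _ := hX
      _ ≤ _ := h5
  · intro q'
    refine ⟨C * C * (nrm (sp q') : ℝ), ?_, ?_⟩
    · have h5 : (1 : ℝ) ≤ (nrm (sp q') : ℝ) := by exact_mod_cast nrm_pos (sp q')
      have h6 : (1 : ℝ) ≤ C * C := by nlinarith
      nlinarith
    · intro q
      have h5 : nrm (sp (q * q')) ≤ nrm (sp q) * nrm (sp q') := by
        apply nrm_mul_le
        intro v hv
        have := (hsp v q q').1 hv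
        tauto
      have h5' : (nrm (sp (q * q')) : ℝ) ≤ (nrm (sp q) : ℝ) * (nrm (sp q') : ℝ) := by
        exact_mod_cast h5
      have hn' : (0 : ℝ) ≤ (nrm (sp q') : ℝ) := by positivity
      calc (condNorm (q * q') : ℝ) ≤ C * (nrm (sp (q * q')) : ℝ) := (hcmp _).2
        _ ≤ C * ((nrm (sp q) : ℝ) * (nrm (sp q') : ℝ)) :=
            mul_le_mul_of_nonneg_left h5' hC0.le
        _ ≤ C * ((C * (condNorm q : ℝ)) * (nrm (sp q') : ℝ)) := by
            apply mul_le_mul_of_nonneg_left _ hC0.le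
            exact mul_le_mul_of_nonneg_right (hcmp q).1 hn'
        _ = C * C * (nrm (sp q') : ℝ) * (condNorm q : ℝ) := by ring

end Pool.Agent.Lib.MP_50bb2e_nt.MT.H91
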